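import Mathlib

set_option autoImplicit false

/-!
# Shortest paths in a connected graph: small sets of vertices with many edges
-/

namespace Pool.Agent.TH451.SH

open SimpleGraph

variable {n : ℕ} (G : SimpleGraph (Fin n))

/-- the edges of `G` inside `S` -/
def inner (S : Finset (Fin n)) : Set (Sym2 (Fin n)) :=
  {e | e ∈ G.edgeSet ∧ ∀ v ∈ e, v ∈ S}

lemma inner_finite (S : Finset (Fin n)) : (inner G S).Finite := Set.toFinite _

variable {G}

lemma le_inner {S : Finset (Fin n)} {T : Finset (Sym2 (Fin n))} (h : ∀ e ∈ T, e ∈ inner G S) :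
    T.card ≤ (inner G S).ncard := by
  rw [← Set.ncard_coe_finset]
  exact Set.ncard_le_ncard (fun e he => h e (by simpa using he)) (inner_finite G S)

theorem exists_path_set (hG : G.Connected) (v u : Fin n) (L : ℕ)
    (hL : G.dist v u < L) :
    ∃ S : Finset (Fin n), v ∈ S ∧ u ∈ S ∧ S.card ≤ L ∧ S.card ≤ (inner G S).ncard + 1 := by
  classical
  obtain ⟨p, hp⟩ := hG.exists_walk_length_eq_dist v u
  have hpath : p.IsPath := p.isPath_of_length_eq_dist hp
  refine ⟨p.support.toFinset, by simp, by simp, ?_, ?_⟩
  · rw [List.toFinset_card_of_nodup hpath.support_nodup, Walk.length_support]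
    omega
  · rw [List.toFinset_card_of_nodup hpath.support_nodup, Walk.length_support]
    have h1 : p.edges.toFinset.card = p.length := by
      rw [List.toFinset_card_of_nodup hpath.isTrail.edges_nodup, Walk.length_edges]
    have h2 : p.edges.toFinset.card ≤ (inner G p.support.toFinset).ncard := by
      apply le_inner
      intro e he
      rw [List.mem_toFinset] at he
      refine ⟨p.edges_subset_edgeSet he, ?_⟩
      intro w hw
      rw [List.mem_toFinset]
      exact p.mem_support_of_mem_edges he hw
    omega

/-- the previous vertex on a shortest walk -/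
lemma exists_pred (hG : G.Connected) {v x : Fin n} (p : G.Walk v x) (hp : p.length = G.dist v x)
    (c : Fin n) (hc : c ∈ p.support) (hcv : c ≠ v) :
    ∃ d ∈ p.support, G.Adj d c ∧ G.dist v d + 1 = G.dist v c := by
  classical
  have h1 : (p.takeUntil c hc).length + (p.dropUntil c hc).length = p.length := by
    rw [← Walk.length_append, Walk.take_spec]
  have h2 : G.dist v x ≤ G.dist v c + G.dist c x := hG.dist_triangle
  have h3 : G.dist v c ≤ (p.takeUntil c hc).length := dist_le _
  have h4 : G.dist c x ≤ (p.dropUntil c hc).length := dist_le _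
  have h5 : (p.takeUntil c hc).length = G.dist v c := by omega
  set q := p.takeUntil c hc with hq
  have hnil : ¬ q.Nil := by
    intro hn
    exact hcv hn.eq.symm
  have hadj : G.Adj q.penultimate c := q.adj_penultimate hnil
  have h6 : q.dropLast.length + 1 = q.length := by
    have := Walk.length_dropLast_add_one hnil
    exact this
  have h7 : G.dist v q.penultimate ≤ q.dropLast.length := dist_le _
  have h8 : G.dist v c ≤ G.dist v q.penultimate + G.dist q.penultimate c := hG.dist_triangle
  have h9 : G.dist q.penultimate c = 1 := dist_eq_one_iff_adj.2 hadj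
  refine ⟨q.penultimate, ?_, hadj, by omega⟩
  exact p.support_takeUntil_subset_support hc (q.getVert_mem_support _)

theorem exists_dense_set (hG : G.Connected) (v x y : Fin n)
    (L : ℕ) (hL : G.dist v x < L) (hxy : G.Adj x y) (hd : G.dist v x = G.dist v y) :
    ∃ S : Finset (Fin n), v ∈ S ∧ S.card ≤ 2 * L ∧ S.card ≤ (inner G S).ncard := by
  classical
  obtain ⟨p, hp⟩ := hG.exists_walk_length_eq_dist v x
  obtain ⟨q, hq⟩ := hG.exists_walk_length_eq_dist v y
  set S : Finset (Fin n) := p.support.toFinset ∪ q.support.toFinset with hS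
  have hvS : v ∈ S := by simp [hS]
  have hxS : x ∈ S := by simp [hS]
  have hyS : y ∈ S := by simp [hS]
  refine ⟨S, hvS, ?_, ?_⟩
  · have h1 := Finset.card_union_le p.support.toFinset q.support.toFinset
    have h2 := p.support.toFinset_card_le
    have h3 := q.support.toFinset_card_le
    rw [Walk.length_support] at h2 h3
    rw [hS]
    omega
  · have hpred : ∀ c : Fin n, ∃ d : Fin n, c ∈ S → c ≠ v →
        d ∈ S ∧ G.Adj d c ∧ G.dist v d + 1 = G.dist v c := by
      intro c
      by_cases hcv : c = v
      · exact ⟨v, fun _ h => absurd hcv h⟩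
      by_cases hcS : c ∈ S
      · rw [hS, Finset.mem_union, List.mem_toFinset, List.mem_toFinset] at hcS
        rcases hcS with hc | hc
        · obtain ⟨d, hd1, hd2, hd3⟩ := exists_pred hG p hp c hc hcv
          exact ⟨d, fun _ _ => ⟨by rw [hS]; simp [hd1], hd2, hd3⟩⟩
        · obtain ⟨d, hd1, hd2, hd3⟩ := exists_pred hG q hq c hc hcv
          exact ⟨d, fun _ _ => ⟨by rw [hS]; simp [hd1], hd2, hd3⟩⟩
      · exact ⟨v, fun h => absurd h hcS⟩
    choose f hf using hpred
    set T : Finset (Sym2 (Fin n)) := insert s(x, y) ((S.erase v).image (fun c => s(c, f c))) with hT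
    have hinj : Set.InjOn (fun c => s(c, f c)) (S.erase v : Finset (Fin n)) := by
      intro c hc c' hc' h
      rw [Finset.mem_coe, Finset.mem_erase] at hc hc'
      have h1 := (hf c hc.2 hc.1).2.2
      have h2 := (hf c' hc'.2 hc'.1).2.2
      simp only [Sym2.eq_iff] at h
      rcases h with h | h
      · exact h.1
      · exfalso
        rw [h.2] at h1
        rw [← h.1] at h2
        omega
    have hnot : s(x, y) ∉ (S.erase v).image (fun c => s(c, f c)) := by
      intro h
      rw [Finset.mem_image] at h
      obtain ⟨c, hc, h⟩ := h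
      rw [Finset.mem_erase] at hc
      have h1 := (hf c hc.2 hc.1).2.2
      simp only [Sym2.eq_iff] at h
      rcases h with h | h
      · rw [h.2, h.1] at h1
        omega
      · rw [h.2, h.1] at h1
        omega
    have hcard : T.card = S.card := by
      rw [hT, Finset.card_insert_of_notMem hnot, Finset.card_image_of_injOn hinj,
        Finset.card_erase_of_mem hvS]
      have := Finset.card_pos.2 ⟨v, hvS⟩
      omega
    rw [← hcard]
    apply le_inner
    intro e he
    rw [hT, Finset.mem_insert, Finset.mem_image] at he
    rcases he with rfl | ⟨c, hc, rfl⟩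
    · refine ⟨hxy, ?_⟩
      intro w hw
      rw [Sym2.mem_iff] at hw
      rcases hw with rfl | rfl
      · exact hxS
      · exact hyS
    · rw [Finset.mem_erase] at hc
      have h1 := hf c hc.2 hc.1
      refine ⟨h1.2.1.symm, ?_⟩
      intro w hw
      rw [Sym2.mem_iff] at hw
      rcases hw with rfl | rfl
      · exact hc.2
      · exact h1.1

end Pool.Agent.TH451.SH
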