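import Pool.Agent.TH948.SH.Expo
import Pool.Agent.TH948.SH.I

set_option autoImplicit false

/-!
# A special independent set in sparse `G(n,p)`
-/

namespace Pool.Agent.TH451.SH.L2

open Filter Topology Asymptotics
open scoped Classical
open Pool.Agent.TH948.SH

/-- the wanted property -/
def Sp (k n : ℕ) (G : SimpleGraph (Fin n)) : Prop :=
  ∃ W : Finset (Fin n), W.card = k ∧
      (∀ x ∈ W, ∀ y ∈ W, ¬ G.Adj x y) ∧
      (∀ w, ∀ x ∈ W, ∀ y ∈ W, G.Adj x w → G.Adj y w → x = y) ∧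
      (∀ x ∈ outN G W, ∀ y ∈ outN G W, ¬ G.Adj x y)

/-- good exposure -/
def Good {n : ℕ} (A : Finset (Fin n)) (M : ℕ) (H : SimpleGraph (Fin n)) : Prop :=
  (∀ u ∈ A, ∀ v ∈ A, ¬ H.Adj u v) ∧
  (∀ w, ∀ u ∈ A, ∀ v ∈ A, H.Adj u w → H.Adj v w → u = v) ∧
  (∀ u ∈ A, (Finset.univ.filter (fun w => H.Adj u w)).card ≤ M)

lemma good_meet {n : ℕ} {A : Finset (Fin n)} {M : ℕ} {G : SimpleGraph (Fin n)}
    (h : Good A M G) : Good A M (meet A G) := by
  obtain ⟨h1, h2, h3⟩ := h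
  refine ⟨fun u hu v hv huv => h1 u hu v hv huv.1,
    fun w u hu v hv huw hvw => h2 w u hu v hv huw.1 hvw.1, fun u hu => ?_⟩
  refine le_trans (Finset.card_le_card ?_) (h3 u hu)
  intro w hw
  rw [Finset.mem_filter] at hw ⊢
  exact ⟨hw.1, hw.2.1⟩

lemma outN_meet {n : ℕ} {A W : Finset (Fin n)} (hW : W ⊆ A) (G : SimpleGraph (Fin n)) :
    outN (meet A G) W = outN G W := by
  ext w
  unfold outN
  rw [Finset.mem_filter, Finset.mem_filter]
  constructor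
  · rintro ⟨h1, h2, u, hu, h3⟩
    exact ⟨h1, h2, u, hu, h3.1⟩
  · rintro ⟨h1, h2, u, hu, h3⟩
    exact ⟨h1, h2, u, hu, h3, Or.inl (hW hu)⟩

lemma mem_outN {n : ℕ} {G : SimpleGraph (Fin n)} {W : Finset (Fin n)} {w : Fin n} :
    w ∈ outN G W ↔ w ∉ W ∧ ∃ u ∈ W, G.Adj u w := by
  unfold outN
  rw [Finset.mem_filter]
  exact ⟨fun h => h.2, fun h => ⟨Finset.mem_univ _, h⟩⟩

lemma det {n k m M : ℕ} {W : Fin m → Finset (Fin n)} {A : Finset (Fin n)} (hWA : ∀ j, W j ⊆ A)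
    (hWc : ∀ j, (W j).card = k) {G : SimpleGraph (Fin n)} (hG : Good A M G) (hS : ¬ Sp k n G)
    (j : Fin m) : ∃ x ∈ outN (meet A G) (W j), ∃ y ∈ outN (meet A G) (W j),
      (off A G).Adj x y := by
  obtain ⟨h1, h2, h3⟩ := hG
  by_contra hcon
  apply hS
  refine ⟨W j, hWc j, fun x hx y hy => h1 x (hWA j hx) y (hWA j hy),
    fun w x hx y hy => h2 w x (hWA j hx) y (hWA j hy), ?_⟩
  intro x hx y hy hxy
  apply hcon
  rw [outN_meet (hWA j)]
  refine ⟨x, hx, y, hy, hxy, ?_, ?_⟩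
  · intro hxA
    obtain ⟨_, u, hu, hux⟩ := mem_outN.mp hx
    exact h1 u (hWA j hu) x hxA hux
  · intro hyA
    obtain ⟨_, u, hu, huy⟩ := mem_outN.mp hy
    exact h1 u (hWA j hu) y hyA huy

lemma expo_bound {n k m M : ℕ} {p : ℝ} (hp0 : 0 ≤ p) (hp1 : p ≤ 1)
    {W : Fin m → Finset (Fin n)} {A : Finset (Fin n)} (hWA : ∀ j, W j ⊆ A)
    (hWc : ∀ j, (W j).card = k) (hWd : ∀ i j, i ≠ j → Disjoint (W i) (W j)) :
    gnp n p (fun G => Good A M (meet A G) ∧ ∀ j : Fin m, ∃ x ∈ outN (meet A G) (W j),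
      ∃ y ∈ outN (meet A G) (W j), (off A G).Adj x y) ≤ (1 - (1 - p) ^ ((k * M) ^ 2)) ^ m := by
  have hq0 : 0 ≤ 1 - p := by linarith
  have hq1 : 1 - p ≤ 1 := by linarith
  have hc0 : 0 ≤ 1 - (1 - p) ^ ((k * M) ^ 2) := by
    have := pow_le_one₀ (n := (k * M) ^ 2) hq0 hq1
    linarith
  refine exposure hp0 hp1 A _ (fun H X => Good A M H ∧ ∀ j : Fin m, ∃ x ∈ outN H (W j),
      ∃ y ∈ outN H (W j), X.Adj x y) ?_
  intro H
  by_cases hH : Good A M H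
  · obtain ⟨h1, h2, h3⟩ := hH
    obtain ⟨T, hT⟩ : ∃ T : Fin m → Finset (Sym2 (Fin n)), ∀ j, T j =
      (outN H (W j)).offDiag.image (fun z => s(z.1, z.2)) := ⟨_, fun _ => rfl⟩
    have hdis : ∀ i j, i ≠ j → ∀ x, x ∈ outN H (W i) → x ∉ outN H (W j) := by
      intro i j hij x hx hx'
      obtain ⟨_, u, hu, hux⟩ := mem_outN.mp hx
      obtain ⟨_, v, hv, hvx⟩ := mem_outN.mp hx'
      have huv := h2 x u (hWA i hu) v (hWA j hv) hux hvx
      exact Finset.disjoint_left.mp (hWd i j hij) hu (huv ▸ hv)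
    have hcard : ∀ j, (T j).card ≤ (k * M) ^ 2 := by
      intro j
      have hD : (outN H (W j)).card ≤ k * M := by
        have hsub : outN H (W j) ⊆ (W j).biUnion (fun u => Finset.univ.filter (fun w => H.Adj u w)) := by
          intro x hx
          obtain ⟨_, u, hu, hux⟩ := mem_outN.mp hx
          exact Finset.mem_biUnion.mpr ⟨u, hu, Finset.mem_filter.mpr ⟨Finset.mem_univ _, hux⟩⟩
        refine le_trans (Finset.card_le_card hsub) ?_
        refine le_trans Finset.card_biUnion_le ?_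
        refine le_trans (Finset.sum_le_card_nsmul _ _ M (fun u hu => h3 u (hWA j hu))) ?_
        rw [hWc j, smul_eq_mul]
      rw [hT]
      refine le_trans Finset.card_image_le ?_
      rw [Finset.offDiag_card]
      calc (outN H (W j)).card * (outN H (W j)).card - (outN H (W j)).card
          ≤ (outN H (W j)).card * (outN H (W j)).card := Nat.sub_le _ _
        _ ≤ (k * M) * (k * M) := Nat.mul_le_mul hD hD
        _ = _ := by ring
    have hb := gnp_blocks_absent (n := n) (p := p) (Finset.univ : Finset (Fin m)) T ?_ ?_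
    · refine le_trans (gnp_imp hp0 hp1 (Q := fun G => ∀ i ∈ (Finset.univ : Finset (Fin m)),
        ¬ ∀ e ∈ T i, e ∉ G.edgeSet) ?_) ?_
      · rintro G ⟨_, hG⟩ j _ hcon
        obtain ⟨x, hx, y, hy, hxy⟩ := hG j
        refine hcon s(x, y) ?_ hxy.1
        rw [hT, Finset.mem_image]
        exact ⟨(x, y), Finset.mem_offDiag.mpr ⟨hx, hy, hxy.1.ne⟩, rfl⟩
      · rw [hb]
        calc ∏ i : Fin m, (1 - (1 - p) ^ (T i).card)
            ≤ ∏ i : Fin m, (1 - (1 - p) ^ ((k * M) ^ 2)) := by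
              apply Finset.prod_le_prod
              · intro i _
                have := pow_le_one₀ (n := (T i).card) hq0 hq1
                linarith
              · intro i _
                have := pow_le_pow_of_le_one hq0 hq1 (hcard i)
                linarith
          _ = _ := by rw [Finset.prod_const, Finset.card_univ, Fintype.card_fin]
    · intro j _ e he
      rw [hT, Finset.mem_image] at he
      obtain ⟨z, hz, rfl⟩ := he
      rw [Sym2.mk_isDiag_iff]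
      exact (Finset.mem_offDiag.mp hz).2.2
    · intro i _ j _ hij
      rw [Finset.disjoint_left]
      intro e he he'
      rw [hT, Finset.mem_image] at he he'
      obtain ⟨z, hz, rfl⟩ := he
      obtain ⟨z', hz', h⟩ := he'
      rw [Sym2.eq_iff] at h
      obtain ⟨hz1, hz2, _⟩ := Finset.mem_offDiag.mp hz
      obtain ⟨hz1', hz2', _⟩ := Finset.mem_offDiag.mp hz'
      rcases h with ⟨h1, _⟩ | ⟨h1, _⟩
      · exact hdis i j hij z.1 hz1 (h1 ▸ hz1')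
      · exact hdis i j hij z.2 hz2 (h1 ▸ hz1')
  · refine le_trans (gnp_imp hp0 hp1 (Q := fun _ => False) (fun G hG => hH hG.1)) ?_
    have h0 : gnp n p (fun _ => False) = 0 := by
      unfold gnp
      simp
    rw [h0]
    exact pow_nonneg hc0 m

lemma bad_a {n : ℕ} {p : ℝ} (hp0 : 0 ≤ p) (hp1 : p ≤ 1) (A : Finset (Fin n)) :
    gnp n p (fun G => ¬ ∀ u ∈ A, ∀ v ∈ A, ¬ G.Adj u v) ≤ (A.card : ℝ) ^ 2 * p := by
  refine le_trans (gnp_imp hp0 hp1 (Q := fun G => ∃ x ∈ A.offDiag,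
    ∀ e ∈ ({s(x.1, x.2)} : Finset (Sym2 (Fin n))), e ∈ G.edgeSet) ?_) ?_
  · intro G hG
    push Not at hG
    obtain ⟨u, hu, v, hv, huv⟩ := hG
    refine ⟨(u, v), Finset.mem_offDiag.mpr ⟨hu, hv, huv.ne⟩, ?_⟩
    intro e he
    rw [Finset.mem_singleton] at he
    rw [he]
    exact huv
  · refine le_trans (gnp_union hp0 hp1 _ _) ?_
    have h1 : ∀ x ∈ A.offDiag, gnp n p (fun G => ∀ e ∈ ({s(x.1, x.2)} : Finset (Sym2 (Fin n))),
      e ∈ G.edgeSet) = p := by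
      intro x hx
      rw [gnp_present _ ?_, Finset.card_singleton, pow_one]
      intro e he
      rw [Finset.mem_singleton] at he
      rw [he, Sym2.mk_isDiag_iff]
      exact (Finset.mem_offDiag.mp hx).2.2
    rw [Finset.sum_congr rfl h1, Finset.sum_const, nsmul_eq_mul]
    apply mul_le_mul_of_nonneg_right _ hp0
    rw [Finset.offDiag_card]
    have h2 : A.card * A.card - A.card ≤ A.card ^ 2 := by
      rw [sq]; exact Nat.sub_le _ _
    exact_mod_cast h2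

lemma bad_b {n : ℕ} {p : ℝ} (hp0 : 0 ≤ p) (hp1 : p ≤ 1) (A : Finset (Fin n)) :
    gnp n p (fun G => ¬ ∀ w, ∀ u ∈ A, ∀ v ∈ A, G.Adj u w → G.Adj v w → u = v)
      ≤ (n : ℝ) * (A.card : ℝ) ^ 2 * p ^ 2 := by
  obtain ⟨B, hB⟩ : ∃ B : Finset (Fin n × (Fin n × Fin n)), B =
    ((Finset.univ : Finset (Fin n)) ×ˢ A.offDiag).filter (fun z => z.2.1 ≠ z.1 ∧ z.2.2 ≠ z.1) :=
    ⟨_, rfl⟩
  refine le_trans (gnp_imp hp0 hp1 (Q := fun G => ∃ z ∈ B,
    ∀ e ∈ ({s(z.2.1, z.1), s(z.2.2, z.1)} : Finset (Sym2 (Fin n))), e ∈ G.edgeSet) ?_) ?_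
  · intro G hG
    push Not at hG
    obtain ⟨w, u, hu, v, hv, huw, hvw, huv⟩ := hG
    refine ⟨(w, (u, v)), ?_, ?_⟩
    · rw [hB, Finset.mem_filter, Finset.mem_product]
      exact ⟨⟨Finset.mem_univ _, Finset.mem_offDiag.mpr ⟨hu, hv, huv⟩⟩, huw.ne, hvw.ne⟩
    · intro e he
      rw [Finset.mem_insert, Finset.mem_singleton] at he
      rcases he with he | he
      · rw [he]; exact huw
      · rw [he]; exact hvw
  · refine le_trans (gnp_union hp0 hp1 _ _) ?_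
    have h1 : ∀ z ∈ B, gnp n p (fun G => ∀ e ∈
        ({s(z.2.1, z.1), s(z.2.2, z.1)} : Finset (Sym2 (Fin n))), e ∈ G.edgeSet) = p ^ 2 := by
      intro z hz
      rw [hB, Finset.mem_filter, Finset.mem_product] at hz
      obtain ⟨⟨_, hz1⟩, hz2, hz3⟩ := hz
      rw [gnp_present _ ?_, Finset.card_pair]
      · intro h
        rw [Sym2.eq_iff] at h
        rcases h with ⟨h, _⟩ | ⟨h, _⟩
        · exact (Finset.mem_offDiag.mp hz1).2.2 h
        · exact hz2 h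
      · intro e he
        rw [Finset.mem_insert, Finset.mem_singleton] at he
        rcases he with he | he
        · rw [he, Sym2.mk_isDiag_iff]; exact hz2
        · rw [he, Sym2.mk_isDiag_iff]; exact hz3
    rw [Finset.sum_congr rfl h1, Finset.sum_const, nsmul_eq_mul]
    apply mul_le_mul_of_nonneg_right _ (by positivity)
    have h2 : B.card ≤ n * A.card ^ 2 := by
      rw [hB]
      refine le_trans (Finset.card_filter_le _ _) ?_
      rw [Finset.card_product, Finset.card_univ, Fintype.card_fin, Finset.offDiag_card, sq]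
      exact Nat.mul_le_mul (le_refl n) (Nat.sub_le _ _)
    exact_mod_cast h2

lemma bad_c {n : ℕ} {p : ℝ} (hp0 : 0 ≤ p) (hp1 : p ≤ 1) (A : Finset (Fin n)) (M : ℕ) :
    gnp n p (fun G => ¬ ∀ u ∈ A, (Finset.univ.filter (fun w => G.Adj u w)).card ≤ M)
      ≤ (A.card : ℝ) * (n.choose (M + 1) : ℝ) * p ^ (M + 1) := by
  obtain ⟨B, hB⟩ : ∃ B : Finset (Fin n × Finset (Fin n)), B =
    (A ×ˢ Finset.powersetCard (M + 1) (Finset.univ : Finset (Fin n))).filter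
      (fun z => z.1 ∉ z.2) := ⟨_, rfl⟩
  refine le_trans (gnp_imp hp0 hp1 (Q := fun G => ∃ z ∈ B,
    ∀ e ∈ z.2.image (fun w => s(z.1, w)), e ∈ G.edgeSet) ?_) ?_
  · intro G hG
    push Not at hG
    obtain ⟨u, hu, hM⟩ := hG
    obtain ⟨S, hS, hSc⟩ := Finset.exists_subset_card_eq (Nat.succ_le_of_lt hM)
    refine ⟨(u, S), ?_, ?_⟩
    · rw [hB, Finset.mem_filter, Finset.mem_product, Finset.mem_powersetCard]
      refine ⟨⟨hu, Finset.subset_univ _, hSc⟩, ?_⟩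
      intro h
      exact G.loopless.irrefl _ (Finset.mem_filter.mp (hS h)).2
    · intro e he
      rw [Finset.mem_image] at he
      obtain ⟨w, hw, rfl⟩ := he
      exact (Finset.mem_filter.mp (hS hw)).2
  · refine le_trans (gnp_union hp0 hp1 _ _) ?_
    have h1 : ∀ z ∈ B, gnp n p (fun G => ∀ e ∈ z.2.image (fun w => s(z.1, w)), e ∈ G.edgeSet)
        = p ^ (M + 1) := by
      intro z hz
      rw [hB, Finset.mem_filter, Finset.mem_product, Finset.mem_powersetCard] at hz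
      obtain ⟨⟨_, _, hz1⟩, hz2⟩ := hz
      rw [gnp_present _ ?_, Finset.card_image_of_injOn, hz1]
      · intro w hw w' hw' h
        beta_reduce at h
        rw [Sym2.eq_iff] at h
        rcases h with ⟨_, h⟩ | ⟨h, _⟩
        · exact h
        · exact absurd (h ▸ hw') hz2
      · intro e he
        rw [Finset.mem_image] at he
        obtain ⟨w, hw, rfl⟩ := he
        rw [Sym2.mk_isDiag_iff]
        rintro rfl
        exact hz2 hw
    rw [Finset.sum_congr rfl h1, Finset.sum_const, nsmul_eq_mul]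
    apply mul_le_mul_of_nonneg_right _ (by positivity)
    have h2 : B.card ≤ A.card * n.choose (M + 1) := by
      rw [hB]
      refine le_trans (Finset.card_filter_le _ _) ?_
      rw [Finset.card_product, Finset.card_powersetCard, Finset.card_univ, Fintype.card_fin]
    exact_mod_cast h2

lemma fin_bound {k m n M : ℕ} (hmn : m * k ≤ n) {p : ℝ} (hp0 : 0 ≤ p) (hp1 : p ≤ 1) :
    1 - (((m : ℝ) * k) ^ 2 * p + n * ((m : ℝ) * k) ^ 2 * p ^ 2
      + ((m : ℝ) * k) * (n.choose (M + 1) : ℝ) * p ^ (M + 1)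
      + (1 - (1 - p) ^ ((k * M) ^ 2)) ^ m) ≤ gnp n p (Sp k n) := by
  obtain ⟨φ, hφi⟩ : ∃ φ : Fin m × Fin k → Fin n, Function.Injective φ :=
    ⟨fun x => Fin.castLE hmn (finProdFinEquiv x), fun x y h =>
      finProdFinEquiv.injective (Fin.castLE_injective hmn h)⟩
  obtain ⟨A, hA⟩ : ∃ A : Finset (Fin n), A = Finset.univ.image φ := ⟨_, rfl⟩
  have hAc : A.card = m * k := by
    rw [hA, Finset.card_image_of_injective _ hφi]; simp
  have hAc' : (A.card : ℝ) = (m : ℝ) * k := by rw [hAc]; push_cast; ring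
  have hAmem : ∀ x, φ x ∈ A := fun x => hA ▸ Finset.mem_image_of_mem φ (Finset.mem_univ x)
  obtain ⟨W, hW⟩ : ∃ W : Fin m → Finset (Fin n), ∀ j, W j =
    Finset.univ.image (fun i : Fin k => φ (j, i)) := ⟨_, fun _ => rfl⟩
  have hWA : ∀ j, W j ⊆ A := by
    intro j v hv
    rw [hW, Finset.mem_image] at hv
    obtain ⟨i, _, rfl⟩ := hv
    exact hAmem _
  have hWc : ∀ j, (W j).card = k := by
    intro j
    rw [hW, Finset.card_image_of_injective, Finset.card_univ, Fintype.card_fin]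
    intro i i' h
    exact congrArg Prod.snd (hφi h)
  have hWd : ∀ i j, i ≠ j → Disjoint (W i) (W j) := by
    intro i j hij
    rw [Finset.disjoint_left]
    intro v hv hv'
    rw [hW, Finset.mem_image] at hv hv'
    obtain ⟨a, _, rfl⟩ := hv
    obtain ⟨b, _, h⟩ := hv'
    exact hij (congrArg Prod.fst (hφi h)).symm
  have ha := bad_a (n := n) hp0 hp1 A
  have hb := bad_b (n := n) hp0 hp1 A
  have hc := bad_c (n := n) hp0 hp1 A M
  have he := expo_bound (n := n) (M := M) hp0 hp1 hWA hWc hWd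
  rw [hAc'] at ha hb hc
  have hN := gnp_not (n := n) (p := p) (Sp k n)
  have hM : gnp n p (fun G => ¬ Sp k n G) ≤ gnp n p (fun G =>
      ((¬ ∀ u ∈ A, ∀ v ∈ A, ¬ G.Adj u v) ∨
      (¬ ∀ w, ∀ u ∈ A, ∀ v ∈ A, G.Adj u w → G.Adj v w → u = v)) ∨
      ((¬ ∀ u ∈ A, (Finset.univ.filter (fun w => G.Adj u w)).card ≤ M) ∨
      (Good A M (meet A G) ∧ ∀ j : Fin m, ∃ x ∈ outN (meet A G) (W j),
      ∃ y ∈ outN (meet A G) (W j), (off A G).Adj x y))) := by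
    apply gnp_imp hp0 hp1
    intro G hG
    by_cases h1 : ∀ u ∈ A, ∀ v ∈ A, ¬ G.Adj u v
    · by_cases h2 : ∀ w, ∀ u ∈ A, ∀ v ∈ A, G.Adj u w → G.Adj v w → u = v
      · by_cases h3 : ∀ u ∈ A, (Finset.univ.filter (fun w => G.Adj u w)).card ≤ M
        · have hg : Good A M G := ⟨h1, h2, h3⟩
          exact Or.inr (Or.inr ⟨good_meet hg, det hWA hWc hg hG⟩)
        · exact Or.inr (Or.inl h3)
      · exact Or.inl (Or.inr h2)
    · exact Or.inl (Or.inl h1)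
  have ho1 := Pool.Agent.TH948.SH.I.gnp_or (n := n) hp0 hp1 (fun G => (¬ ∀ u ∈ A, ∀ v ∈ A, ¬ G.Adj u v) ∨
      (¬ ∀ w, ∀ u ∈ A, ∀ v ∈ A, G.Adj u w → G.Adj v w → u = v))
      (fun G => (¬ ∀ u ∈ A, (Finset.univ.filter (fun w => G.Adj u w)).card ≤ M) ∨
      (Good A M (meet A G) ∧ ∀ j : Fin m, ∃ x ∈ outN (meet A G) (W j),
      ∃ y ∈ outN (meet A G) (W j), (off A G).Adj x y))
  have ho2 := Pool.Agent.TH948.SH.I.gnp_or (n := n) hp0 hp1 (fun G => ¬ ∀ u ∈ A, ∀ v ∈ A, ¬ G.Adj u v)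
      (fun G => ¬ ∀ w, ∀ u ∈ A, ∀ v ∈ A, G.Adj u w → G.Adj v w → u = v)
  have ho3 := Pool.Agent.TH948.SH.I.gnp_or (n := n) hp0 hp1
      (fun G => ¬ ∀ u ∈ A, (Finset.univ.filter (fun w => G.Adj u w)).card ≤ M)
      (fun G => Good A M (meet A G) ∧ ∀ j : Fin m, ∃ x ∈ outN (meet A G) (W j),
      ∃ y ∈ outN (meet A G) (W j), (off A G).Adj x y)
  linarith

lemma rp {N : ℝ} (hN : 0 ≤ N) (a : ℝ) (j : ℕ) : (N ^ a) ^ j = N ^ (a * j) := by
  rw [← Real.rpow_natCast, ← Real.rpow_mul hN]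

lemma choose_bound {n r : ℕ} {q : ℝ} (hq0 : 0 ≤ q) (hr : 6 * ((n : ℝ) * q) ≤ r) (hr1 : 1 ≤ r) :
    (n.choose r : ℝ) * q ^ r ≤ 1 / r := by
  have hr0 : (0 : ℝ) < r := by exact_mod_cast hr1
  have h1 : (n.choose r : ℝ) ≤ (n : ℝ) ^ r / (r.factorial : ℝ) := Nat.choose_le_pow_div r n
  have hf : (0 : ℝ) < (r.factorial : ℝ) := by exact_mod_cast Nat.factorial_pos r
  calc (n.choose r : ℝ) * q ^ r ≤ ((n : ℝ) ^ r / (r.factorial : ℝ)) * q ^ r :=
        mul_le_mul_of_nonneg_right h1 (pow_nonneg hq0 r)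
    _ = ((n : ℝ) * q) ^ r / (r.factorial : ℝ) := by rw [mul_pow]; ring
    _ ≤ ((r : ℝ) / 6) ^ r / (r.factorial : ℝ) := by
        apply div_le_div_of_nonneg_right _ hf.le
        apply pow_le_pow_left₀ (by positivity)
        linarith
    _ = (1 / 6) ^ r * ((r : ℝ) ^ r / (r.factorial : ℝ)) := by
        rw [div_pow, one_div, inv_pow]; ring
    _ ≤ (1 / 6) ^ r * Real.exp r := by
        apply mul_le_mul_of_nonneg_left _ (by positivity)
        exact Real.pow_div_factorial_le_exp _ hr0.le r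
    _ = (1 / 6 * Real.exp 1) ^ r := by
        rw [mul_pow, ← Real.exp_nat_mul, mul_one]
    _ ≤ (1 / 2) ^ r := by
        apply pow_le_pow_left₀ (by positivity)
        have := Real.exp_one_lt_d9
        linarith
    _ = 1 / 2 ^ r := by rw [div_pow, one_pow]
    _ ≤ 1 / r := by
        apply one_div_le_one_div_of_le hr0
        have : r < 2 ^ r := Nat.lt_two_pow_self
        exact_mod_cast this.le

lemma real_bound {k n : ℕ} (hn : 2 ≤ n) {q D : ℝ} (hq0 : 0 ≤ q) (hD : 0 < D) (hD5 : 5 * D ≤ 1)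
    (hDk : 3920 * (k : ℝ) ^ 2 * D ≤ 1) (hq : q ^ 3 * (n : ℝ) ^ 2 = D * Real.log n)
    (hL : 1 ≤ D * Real.log n) :
    q ≤ 1 ∧
    ((((⌊(n : ℝ) ^ ((1 : ℝ) / 20)⌋₊ : ℕ) : ℝ) * k) ^ 2 * q
      + n * (((⌊(n : ℝ) ^ ((1 : ℝ) / 20)⌋₊ : ℕ) : ℝ) * k) ^ 2 * q ^ 2
      + (((⌊(n : ℝ) ^ ((1 : ℝ) / 20)⌋₊ : ℕ) : ℝ) * k) *
        (n.choose (⌈6 * ((n : ℝ) * q)⌉₊ + 1) : ℝ) * q ^ (⌈6 * ((n : ℝ) * q)⌉₊ + 1)
      + (1 - (1 - q) ^ ((k * ⌈6 * ((n : ℝ) * q)⌉₊) ^ 2)) ^ ⌊(n : ℝ) ^ ((1 : ℝ) / 20)⌋₊)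
    ≤ (k : ℝ) ^ 2 * (n : ℝ) ^ (-((1 : ℝ) / 2)) + (k : ℝ) ^ 2 * (n : ℝ) ^ (-((1 : ℝ) / 10))
      + (k : ℝ) * (n : ℝ) ^ (-((17 : ℝ) / 60)) + Real.exp (-((n : ℝ) ^ ((1 : ℝ) / 40) - 1)) := by
  obtain ⟨N, hN⟩ : ∃ N : ℝ, N = n := ⟨_, rfl⟩
  have hN2 : 2 ≤ N := by rw [hN]; exact_mod_cast hn
  have hN0 : 0 < N := by linarith
  rw [← hN] at hq hL ⊢
  have hlog : Real.log N ≤ 5 * N ^ ((1 : ℝ) / 5) := by
    have := Real.log_le_rpow_div hN0.le (show (0 : ℝ) < 1 / 5 by norm_num)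
    linarith
  have hlog0 : 0 ≤ Real.log N := Real.log_nonneg (by linarith)
  have hN2r : N ^ (2 : ℕ) = N ^ (2 : ℝ) := by rw [← Real.rpow_natCast]; norm_num
  have hr : ∀ a : ℝ, 0 < N ^ a := fun a => Real.rpow_pos_of_pos hN0 a
  have hq35 : q ≤ N ^ (-((3 : ℝ) / 5)) := by
    rw [← pow_le_pow_iff_left₀ hq0 (hr _).le (show (3 : ℕ) ≠ 0 by norm_num)]
    have h1 : (N ^ (-((3 : ℝ) / 5))) ^ 3 * N ^ 2 = N ^ ((1 : ℝ) / 5) := by
      rw [rp hN0.le, hN2r, ← Real.rpow_add hN0]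
      norm_num
    have h2 : q ^ 3 * N ^ 2 ≤ (N ^ (-((3 : ℝ) / 5))) ^ 3 * N ^ 2 := by
      rw [h1, hq]
      have := hr ((1 : ℝ) / 5)
      nlinarith
    exact le_of_mul_le_mul_right h2 (by positivity)
  have hq12 : q ≤ 1 / 2 := by
    rw [← pow_le_pow_iff_left₀ hq0 (by norm_num) (show (3 : ℕ) ≠ 0 by norm_num)]
    have h2 : q ^ 3 * N ^ 2 ≤ (1 / 2) ^ 3 * N ^ 2 := by
      rw [hq]
      have h3 : Real.log N ≤ N - 1 := Real.log_le_sub_one_of_pos hN0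
      nlinarith
    exact le_of_mul_le_mul_right h2 (by positivity)
  have hnq : N ^ ((1 : ℝ) / 3) ≤ N * q := by
    rw [← pow_le_pow_iff_left₀ (hr _).le (by positivity) (show (3 : ℕ) ≠ 0 by norm_num), rp hN0.le]
    have h1 : (N * q) ^ 3 = N * (D * Real.log N) := by rw [← hq]; ring
    rw [h1]
    have h2 : N ^ ((1 : ℝ) / 3 * ((3 : ℕ) : ℝ)) = N := by
      norm_num
    rw [h2]
    nlinarith
  have hnq1 : 1 ≤ N * q := by
    refine le_trans ?_ hnq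
    exact Real.one_le_rpow (by linarith) (by norm_num)
  obtain ⟨m, hm⟩ : ∃ m : ℕ, m = ⌊N ^ ((1 : ℝ) / 20)⌋₊ := ⟨_, rfl⟩
  rw [← hm]
  have hm0 : (0 : ℝ) ≤ m := Nat.cast_nonneg m
  have hk0 : (0 : ℝ) ≤ k := Nat.cast_nonneg k
  have hm1 : (m : ℝ) ≤ N ^ ((1 : ℝ) / 20) := hm ▸ Nat.floor_le (Real.rpow_nonneg hN0.le _)
  have hm2 : N ^ ((1 : ℝ) / 20) - 1 ≤ (m : ℝ) := by
    have := Nat.lt_floor_add_one (N ^ ((1 : ℝ) / 20))
    rw [← hm] at this
    linarith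
  have hmm : (m : ℝ) ^ 2 ≤ N ^ ((1 : ℝ) / 10) := by
    calc (m : ℝ) ^ 2 ≤ (N ^ ((1 : ℝ) / 20)) ^ 2 := pow_le_pow_left₀ hm0 hm1 2
      _ = _ := by rw [rp hN0.le]; norm_num
  obtain ⟨M, hM⟩ : ∃ M : ℕ, M = ⌈6 * (N * q)⌉₊ := ⟨_, rfl⟩
  rw [← hM]
  have hM0 : (0 : ℝ) ≤ M := Nat.cast_nonneg M
  have hM1 : 6 * (N * q) ≤ M := hM ▸ Nat.le_ceil _
  have hM2 : (M : ℝ) ≤ 7 * (N * q) := by
    have := Nat.ceil_lt_add_one (show 0 ≤ 6 * (N * q) by positivity)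
    rw [← hM] at this
    linarith
  have ha : ((m : ℝ) * k) ^ 2 * q ≤ (k : ℝ) ^ 2 * N ^ (-((1 : ℝ) / 2)) := by
    calc ((m : ℝ) * k) ^ 2 * q = (k : ℝ) ^ 2 * ((m : ℝ) ^ 2 * q) := by ring
      _ ≤ (k : ℝ) ^ 2 * (N ^ ((1 : ℝ) / 10) * N ^ (-((3 : ℝ) / 5))) := by
          apply mul_le_mul_of_nonneg_left _ (by positivity)
          exact mul_le_mul hmm hq35 hq0 (hr _).le
      _ = _ := by rw [← Real.rpow_add hN0]; norm_num
  have hb : N * ((m : ℝ) * k) ^ 2 * q ^ 2 ≤ (k : ℝ) ^ 2 * N ^ (-((1 : ℝ) / 10)) := by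
    calc N * ((m : ℝ) * k) ^ 2 * q ^ 2 = (k : ℝ) ^ 2 * (N * ((m : ℝ) ^ 2 * q ^ 2)) := by ring
      _ ≤ (k : ℝ) ^ 2 * (N * (N ^ ((1 : ℝ) / 10) * (N ^ (-((3 : ℝ) / 5))) ^ 2)) := by
          apply mul_le_mul_of_nonneg_left _ (by positivity)
          apply mul_le_mul_of_nonneg_left _ hN0.le
          exact mul_le_mul hmm (pow_le_pow_left₀ hq0 hq35 2) (by positivity) (hr _).le
      _ = (k : ℝ) ^ 2 * (N ^ (1 : ℝ) * (N ^ ((1 : ℝ) / 10) * (N ^ (-((3 : ℝ) / 5))) ^ 2)) := by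
          rw [Real.rpow_one]
      _ = _ := by
          rw [rp hN0.le, ← Real.rpow_add hN0, ← Real.rpow_add hN0]
          norm_num
  have hc : ((m : ℝ) * k) * (n.choose (M + 1) : ℝ) * q ^ (M + 1)
      ≤ (k : ℝ) * N ^ (-((17 : ℝ) / 60)) := by
    have h1 := choose_bound (n := n) (r := M + 1) hq0 (by rw [← hN]; push_cast; linarith) (by omega)
    have h2 : 1 / ((M + 1 : ℕ) : ℝ) ≤ N ^ (-((1 : ℝ) / 3)) := by
      rw [Real.rpow_neg hN0.le, ← one_div]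
      apply one_div_le_one_div_of_le (hr _)
      push_cast
      linarith
    calc ((m : ℝ) * k) * (n.choose (M + 1) : ℝ) * q ^ (M + 1)
        = (k : ℝ) * ((m : ℝ) * ((n.choose (M + 1) : ℝ) * q ^ (M + 1))) := by ring
      _ ≤ (k : ℝ) * (N ^ ((1 : ℝ) / 20) * N ^ (-((1 : ℝ) / 3))) := by
          apply mul_le_mul_of_nonneg_left _ hk0
          exact mul_le_mul hm1 (le_trans h1 h2) (by positivity) (hr _).le
      _ = _ := by rw [← Real.rpow_add hN0]; norm_num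
  have hd : (1 - (1 - q) ^ ((k * M) ^ 2)) ^ m ≤ Real.exp (-(N ^ ((1 : ℝ) / 40) - 1)) := by
    have hy : N ^ (-((1 : ℝ) / 40)) ≤ (1 - q) ^ ((k * M) ^ 2) := by
      calc N ^ (-((1 : ℝ) / 40)) = Real.exp (Real.log N * (-((1 : ℝ) / 40))) :=
            Real.rpow_def_of_pos hN0 _
        _ ≤ Real.exp ((((k * M) ^ 2 : ℕ) : ℝ) * (-(2 * q))) := by
            apply Real.exp_le_exp.mpr
            push_cast
            have h1 : (M : ℝ) ^ 2 ≤ 49 * (N ^ 2 * q ^ 2) := by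
              calc (M : ℝ) ^ 2 ≤ (7 * (N * q)) ^ 2 := pow_le_pow_left₀ hM0 hM2 2
                _ = _ := by ring
            have h2 : ((k : ℝ) * M) ^ 2 * q ≤ 49 * (k : ℝ) ^ 2 * (D * Real.log N) := by
              rw [← hq]
              calc ((k : ℝ) * M) ^ 2 * q = ((k : ℝ) ^ 2 * q) * (M : ℝ) ^ 2 := by ring
                _ ≤ ((k : ℝ) ^ 2 * q) * (49 * (N ^ 2 * q ^ 2)) :=
                    mul_le_mul_of_nonneg_left h1 (by positivity)
                _ = _ := by ring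
            have h3 : 3920 * (k : ℝ) ^ 2 * D * Real.log N ≤ 1 * Real.log N :=
              mul_le_mul_of_nonneg_right hDk hlog0
            nlinarith
        _ = (Real.exp (-(2 * q))) ^ ((k * M) ^ 2) := by rw [← Real.exp_nat_mul]
        _ ≤ (1 - q) ^ ((k * M) ^ 2) := pow_le_pow_left₀ (Real.exp_pos _).le
            (Pool.Agent.TH948.SH.I.one_sub_ge hq0 hq12) _
    obtain ⟨y, hyd⟩ : ∃ y : ℝ, y = (1 - q) ^ ((k * M) ^ 2) := ⟨_, rfl⟩
    rw [← hyd] at hy ⊢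
    have hy1 : y ≤ 1 := by rw [hyd]; exact pow_le_one₀ (by linarith) (by linarith)
    have hy0 : 0 ≤ y := le_trans (Real.rpow_nonneg hN0.le _) hy
    calc (1 - y) ^ m ≤ (Real.exp (-y)) ^ m :=
          pow_le_pow_left₀ (by linarith) (Real.one_sub_le_exp_neg y) m
      _ = Real.exp ((m : ℝ) * (-y)) := by rw [← Real.exp_nat_mul]
      _ ≤ _ := by
          apply Real.exp_le_exp.mpr
          have h1 : (N ^ ((1 : ℝ) / 20) - 1) * N ^ (-((1 : ℝ) / 40)) ≤ m * y := by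
            apply mul_le_mul hm2 hy (hr _).le hm0
          have h2 : N ^ ((1 : ℝ) / 20) * N ^ (-((1 : ℝ) / 40)) = N ^ ((1 : ℝ) / 40) := by
            rw [← Real.rpow_add hN0]
            norm_num
          have h3 : N ^ (-((1 : ℝ) / 40)) ≤ 1 :=
            Real.rpow_le_one_of_one_le_of_nonpos (by linarith) (by norm_num)
          rw [sub_mul, h2, one_mul] at h1
          linarith
  exact ⟨by linarith, by linarith⟩


lemma sp_anti {k n : ℕ} (G G' : SimpleGraph (Fin n)) (hG : G ≤ G') (h : Sp k n G') : Sp k n G := by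
  obtain ⟨W, h1, h2, h3, h4⟩ := h
  have hsub : ∀ x, x ∈ outN G W → x ∈ outN G' W := by
    intro x hx
    rw [mem_outN] at hx ⊢
    obtain ⟨h5, u, hu, h6⟩ := hx
    exact ⟨h5, u, hu, hG h6⟩
  exact ⟨W, h1, fun x hx y hy hxy => h2 x hx y hy (hG hxy),
    fun w x hx y hy hxw hyw => h3 w x hx y hy (hG hxw) (hG hyw),
    fun x hx y hy hxy => h4 x (hsub x hx) y (hsub y hy) (hG hxy)⟩

/-- **The special set.** -/
theorem main (k : ℕ) (p : ℕ → ℝ) (hp : ∀ n, 0 ≤ p n ∧ p n ≤ 1)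
    (h : Tendsto (fun n : ℕ => (p n) ^ 3 * (n : ℝ) ^ 2 / Real.log n) atTop (𝓝 0)) :
    Tendsto (fun n => gnp n (p n) (fun G => ∃ W : Finset (Fin n), W.card = k ∧
      (∀ x ∈ W, ∀ y ∈ W, ¬ G.Adj x y) ∧
      (∀ w, ∀ x ∈ W, ∀ y ∈ W, G.Adj x w → G.Adj y w → x = y) ∧
      (∀ x ∈ outN G W, ∀ y ∈ outN G W, ¬ G.Adj x y))) atTop (𝓝 1) := by
  obtain ⟨D, hDdef⟩ : ∃ D : ℝ, D = 1 / (4000 * ((k : ℝ) + 1) ^ 2) := ⟨_, rfl⟩
  have hk0 : (0 : ℝ) ≤ k := Nat.cast_nonneg k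
  have hden : (0 : ℝ) < 4000 * ((k : ℝ) + 1) ^ 2 := by positivity
  have hD : 0 < D := by rw [hDdef]; positivity
  have hD1 : D * (4000 * ((k : ℝ) + 1) ^ 2) = 1 := by
    rw [hDdef]; field_simp
  have hD5 : 5 * D ≤ 1 := by
    nlinarith [mul_nonneg hD.le hk0, mul_nonneg (mul_nonneg hD.le hk0) hk0]
  have hDk : 3920 * (k : ℝ) ^ 2 * D ≤ 1 := by
    nlinarith [mul_nonneg hD.le hk0, mul_nonneg (mul_nonneg hD.le hk0) hk0]
  have hcast : Tendsto (fun n : ℕ => (n : ℝ)) atTop atTop := tendsto_natCast_atTop_atTop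
  have hneg : ∀ a : ℝ, 0 < a → ∀ c : ℝ,
      Tendsto (fun n : ℕ => c * (n : ℝ) ^ (-a)) atTop (𝓝 0) := by
    intro a ha c
    have h1 := (tendsto_rpow_neg_atTop ha).comp hcast
    have h2 := h1.const_mul c
    rw [mul_zero] at h2
    exact h2
  have hT4 : Tendsto (fun n : ℕ => Real.exp (-((n : ℝ) ^ ((1 : ℝ) / 40) - 1))) atTop (𝓝 0) := by
    have h1 := (tendsto_rpow_atTop (show (0 : ℝ) < 1 / 40 by positivity)).comp hcast
    have h2 : Tendsto (fun n : ℕ => (n : ℝ) ^ ((1 : ℝ) / 40) - 1) atTop atTop :=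
      tendsto_atTop_add_const_right _ (-1) h1
    exact Real.tendsto_exp_neg_atTop_nhds_zero.comp h2
  have hlow : Tendsto (fun n : ℕ => 1 - ((k : ℝ) ^ 2 * (n : ℝ) ^ (-((1 : ℝ) / 2))
      + (k : ℝ) ^ 2 * (n : ℝ) ^ (-((1 : ℝ) / 10)) + (k : ℝ) * (n : ℝ) ^ (-((17 : ℝ) / 60))
      + Real.exp (-((n : ℝ) ^ ((1 : ℝ) / 40) - 1)))) atTop (𝓝 1) := by
    have := (tendsto_const_nhds (x := (1 : ℝ))).sub
      ((((hneg (1 / 2) (by norm_num) ((k : ℝ) ^ 2)).add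
        (hneg (1 / 10) (by norm_num) ((k : ℝ) ^ 2))).add
        (hneg (17 / 60) (by norm_num) (k : ℝ))).add hT4)
    simpa using this
  refine tendsto_of_tendsto_of_tendsto_of_le_of_le' hlow tendsto_const_nhds ?_
    (Filter.Eventually.of_forall fun n => gnp_le_one (hp n).1 (hp n).2 _)
  have hev : ∀ᶠ n : ℕ in atTop, (p n) ^ 3 * (n : ℝ) ^ 2 / Real.log n < D :=
    h.eventually_lt_const hD
  have hlogt : Tendsto (fun n : ℕ => Real.log (n : ℝ)) atTop atTop :=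
    Real.tendsto_log_atTop.comp hcast
  have hev2 : ∀ᶠ n : ℕ in atTop, 1 / D ≤ Real.log n := hlogt.eventually_ge_atTop _
  filter_upwards [hev, hev2, eventually_ge_atTop (k ^ 2 + 2)] with n h1 h2 h3
  have hn2 : 2 ≤ n := by omega
  have hN2 : (2 : ℝ) ≤ n := by exact_mod_cast hn2
  have hlog : 0 < Real.log n := Real.log_pos (by linarith)
  have hL : 1 ≤ D * Real.log n := by
    rw [div_le_iff₀ hD] at h2
    linarith
  obtain ⟨q, hqdef⟩ : ∃ q : ℝ, q = (D * Real.log n / (n : ℝ) ^ 2) ^ ((1 : ℝ) / 3) := ⟨_, rfl⟩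
  have hb0 : 0 ≤ D * Real.log n / (n : ℝ) ^ 2 := by positivity
  have hq0 : 0 ≤ q := hqdef ▸ Real.rpow_nonneg hb0 _
  have hq3 : q ^ 3 * (n : ℝ) ^ 2 = D * Real.log n := by
    rw [hqdef, rp hb0]
    have : (1 : ℝ) / 3 * ((3 : ℕ) : ℝ) = 1 := by norm_num
    rw [this, Real.rpow_one]
    field_simp
  have hpq : p n ≤ q := by
    rw [← pow_le_pow_iff_left₀ (hp n).1 hq0 (show (3 : ℕ) ≠ 0 by norm_num)]
    rw [div_lt_iff₀ hlog] at h1
    have h5 : (p n) ^ 3 * (n : ℝ) ^ 2 ≤ q ^ 3 * (n : ℝ) ^ 2 := by rw [hq3]; exact h1.le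
    exact le_of_mul_le_mul_right h5 (by positivity)
  obtain ⟨hq1, hb⟩ := real_bound (k := k) hn2 hq0 hD hD5 hDk hq3 hL
  have hmn : ⌊(n : ℝ) ^ ((1 : ℝ) / 20)⌋₊ * k ≤ n := by
    have h3' : ((⌊(n : ℝ) ^ ((1 : ℝ) / 20)⌋₊ : ℕ) : ℝ) ≤ (n : ℝ) ^ ((1 : ℝ) / 2) := by
      refine le_trans (Nat.floor_le (Real.rpow_nonneg (by linarith) _)) ?_
      apply Real.rpow_le_rpow_of_exponent_le (by linarith)
      norm_num
    have h4 : (k : ℝ) ≤ (n : ℝ) ^ ((1 : ℝ) / 2) := by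
      rw [← Real.sqrt_eq_rpow]
      apply Real.le_sqrt_of_sq_le
      have : k ^ 2 ≤ n := by omega
      exact_mod_cast this
    have h5 : (((⌊(n : ℝ) ^ ((1 : ℝ) / 20)⌋₊ * k : ℕ)) : ℝ) ≤ n := by
      rw [Nat.cast_mul]
      calc ((⌊(n : ℝ) ^ ((1 : ℝ) / 20)⌋₊ : ℕ) : ℝ) * k
          ≤ (n : ℝ) ^ ((1 : ℝ) / 2) * (n : ℝ) ^ ((1 : ℝ) / 2) :=
            mul_le_mul h3' h4 (Nat.cast_nonneg k) (Real.rpow_nonneg (by linarith) _)
        _ = n := by
            rw [← Real.rpow_add (by linarith)]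
            norm_num
    exact_mod_cast h5
  have hfin := fin_bound (M := ⌈6 * ((n : ℝ) * q)⌉₊) hmn hq0 hq1
  have hanti := gnp_anti (n := n) (hp n).1 hpq hq1 (Sp k n) sp_anti
  change _ ≤ gnp n (p n) (Sp k n)
  linarith

end Pool.Agent.TH451.SH.L2
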